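import Mathlib

/-!
# Project LK: generalized Bernoulli numbers `B_{k,χ}` prime to `p`, `2 ≤ k ≤ p - 1`, package statements
-/

set_option autoImplicit false

namespace Pool.Agent.U332.LK

open Finset

/-- `c w = q + v s` with `v`, `s` small, `k v ≤ w`, and `s` prime to `p`. -/
def Rep (p k q c : ℕ) : Prop :=
  ∃ v w s : ℕ, 1 ≤ v ∧ k * v ≤ w ∧ w < q ∧ c * s ≤ q ∧ s < c ∧ q + v * s = c * w ∧ ¬ p ∣ s ∧
    k * c < q

/-- Package B: for such `c` some `b` sees a jump of `c` at `b`, no other jump of `c` in the window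
`(b - k, b]`, and no jump of a smaller number in this window; and `c b mod q` is prime to `p`. -/
def S_B : Prop :=
  ∀ p k q c : ℕ, p.Prime → 1 ≤ k → q.Prime → c < q → Rep p k q c →
    ∃ b, k < b ∧ b < q ∧ c * b / q = c * (b - 1) / q + 1 ∧
      c * (b - 1) / q = c * (b - k) / q ∧ ¬ p ∣ c * b % q ∧
      ∀ a, a < c → a * b / q = a * (b - k) / q

/-- Package C: there are at least `q ^ (2 / 3 - ε)` such `c`. -/
def S_C : Prop :=
  ∀ p : ℕ, p.Prime → p ≠ 2 → ∀ ε : ℝ, 0 < ε → ∃ Q : ℕ, ∀ k q : ℕ, 1 ≤ k → k ≤ p - 1 →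
    q.Prime → Q ≤ q → (q : ℝ) ^ (2 / 3 - ε) ≤ ({c : ℕ | c < q ∧ Rep p k q c}.ncard : ℝ)

end Pool.Agent.U332.LK
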