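import Mathlib
import Pool.Agent.U332.LK.Stm
import Pool.Agent.U624.LQ.C
import Pool.Agent.H510R2.Div

/-!
# Project LK, package C: counting the `c` with `c w = q + v s`, `s` prime to `p`
-/

set_option autoImplicit false

namespace Pool.Agent.U332.LK.C

open Finset
open Pool.Agent.U332.LK (Rep S_C)
open Pool.Agent.U624.LQ.C (V cheb)

/-- the number `s` of the pair `(v, w)` -/
def sv (q w v : ℕ) : ℕ := (-(q : ZMod w) * ((v : ZMod w))⁻¹).val

lemma sv_spec {q w v : ℕ} (hw : w.Prime) (hq : ¬ w ∣ q) (hv1 : 1 ≤ v) (hvw : v < w) :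
    sv q w v < w ∧ 1 ≤ sv q w v ∧ w ∣ q + v * sv q w v := by
  have : NeZero w := ⟨hw.ne_zero⟩
  have hcop : Nat.Coprime v w :=
    ((Nat.Prime.coprime_iff_not_dvd hw).2 (Nat.not_dvd_of_pos_of_lt hv1 hvw)).symm
  have hdvd : w ∣ q + v * sv q w v := by
    rw [← ZMod.natCast_eq_zero_iff]
    push_cast
    unfold sv
    rw [ZMod.natCast_zmod_val]
    have h1 := ZMod.coe_mul_inv_eq_one v hcop
    linear_combination (-(q : ZMod w)) * h1
  refine ⟨ZMod.val_lt _, ?_, hdvd⟩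
  rcases Nat.eq_zero_or_pos (sv q w v) with h | h
  · rw [h, mul_zero, add_zero] at hdvd
    exact absurd hdvd hq
  · exact h

lemma sv_inj {q w : ℕ} (hw : w.Prime) (hq : ¬ w ∣ q) {v v' : ℕ} (hv1 : 1 ≤ v) (hvw : v < w)
    (hv1' : 1 ≤ v') (hvw' : v' < w) (h : sv q w v = sv q w v') : v = v' := by
  have : Fact w.Prime := ⟨hw⟩
  obtain ⟨a1, a2, a3⟩ := sv_spec hw hq hv1 hvw
  obtain ⟨b1, b2, b3⟩ := sv_spec hw hq hv1' hvw'
  rw [← h] at b3
  rw [← ZMod.natCast_eq_zero_iff] at a3 b3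
  push_cast at a3 b3
  have hs : ((sv q w v : ℕ) : ZMod w) ≠ 0 := by
    intro h0
    rw [ZMod.natCast_eq_zero_iff] at h0
    exact absurd (Nat.le_of_dvd a2 h0) (by omega)
  have h2 : (v : ZMod w) = (v' : ZMod w) := by
    apply mul_right_cancel₀ hs
    linear_combination a3 - b3
  have h3 := (ZMod.natCast_eq_natCast_iff' v v' w).1 h2
  rwa [Nat.mod_eq_of_lt hvw, Nat.mod_eq_of_lt hvw'] at h3

/-- the bad numbers `v` -/
lemma card_bad {p q w N : ℕ} (hw : w.Prime) (hq : ¬ w ∣ q) (hN : N < w) :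
    ((Icc 1 N).filter (fun v => p ∣ sv q w v)).card ≤ (w - 1) / p := by
  rw [← Nat.Ioc_filter_dvd_card_eq_div (w - 1) p]
  refine card_le_card_of_injOn (sv q w) ?_ ?_
  · intro v hv
    rw [mem_coe, mem_filter, mem_Icc] at hv
    obtain ⟨⟨h1, h2⟩, h3⟩ := hv
    obtain ⟨a1, a2, -⟩ := sv_spec hw hq h1 (by omega)
    rw [mem_coe, mem_filter, mem_Ioc]
    exact ⟨⟨by omega, by omega⟩, h3⟩
  · intro v hv v' hv' h
    rw [mem_coe, mem_filter, mem_Icc] at hv hv'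
    exact sv_inj hw hq hv.1.1 (by omega) hv'.1.1 (by omega) h

/-- the good numbers `v` -/
lemma card_good {p k q w m : ℕ} (hp : 2 ≤ p) (hk : 1 ≤ k) (hkp : k ≤ p - 1) (hw : w.Prime)
    (hq : ¬ w ∣ q) (hm : 2 * p ^ 2 ≤ m) (hmw : m < w) :
    m ≤ 2 * p ^ 2 * ((Icc 1 ((w - 1) / k)).filter (fun v => ¬ p ∣ sv q w v)).card := by
  have hN : (w - 1) / k < w := by
    have : (w - 1) / k ≤ w - 1 := Nat.div_le_self _ _
    have := hw.pos
    omega
  have h1 := Finset.card_filter_add_card_filter_not (s := Icc 1 ((w - 1) / k))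
    (fun v => p ∣ sv q w v)
  have h2 := card_bad (p := p) hw hq hN
  rw [Nat.card_Icc, Nat.add_sub_cancel] at h1
  obtain ⟨a, ha⟩ : ∃ a : ℕ, a = ((Icc 1 ((w - 1) / k)).filter (fun v => ¬ p ∣ sv q w v)).card :=
    ⟨_, rfl⟩
  obtain ⟨b, hb⟩ : ∃ b : ℕ, b = ((Icc 1 ((w - 1) / k)).filter (fun v => p ∣ sv q w v)).card :=
    ⟨_, rfl⟩
  rw [← ha, ← hb] at h1
  rw [← hb] at h2
  rw [← ha]
  obtain ⟨r, rfl⟩ : ∃ r : ℕ, p = r + 1 := ⟨p - 1, by omega⟩
  rw [Nat.add_sub_cancel] at hkp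
  have h3 : (w - 1) / r ≤ (w - 1) / k := Nat.div_le_div_left hkp (by omega)
  have h4 : w - 1 < r * ((w - 1) / r) + r := by
    have := Nat.lt_div_mul_add (a := w - 1) (b := r) (by omega)
    linarith [mul_comm r ((w - 1) / r)]
  have h5 : (r + 1) * ((w - 1) / (r + 1)) ≤ w - 1 := Nat.mul_div_le _ _
  have h6 : r * ((w - 1) / r) ≤ r * ((w - 1) / k) := Nat.mul_le_mul_left _ h3
  obtain ⟨x, hx⟩ : ∃ x : ℕ, w = x + 1 := ⟨w - 1, by have := hw.pos; omega⟩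
  subst hx
  rw [Nat.add_sub_cancel] at *
  -- `x < r (x / k) + r`, `(r + 1) b ≤ x`, `b + a = x / k`
  have h7 : (r + 1) * b ≤ x := (Nat.mul_le_mul_left _ h2).trans h5
  have h8 : x < r * (b + a) + r := by
    rw [h1]; omega
  have h9 : r * ((r + 1) * b) ≤ r * x := Nat.mul_le_mul_left _ h7
  have h10 : (r + 1) * x ≤ (r + 1) * (r * (b + a) + r) := Nat.mul_le_mul_left _ h8.le
  have h11 : x ≤ r * (r + 1) * a + r * (r + 1) := by nlinarith
  have h12 : m ≤ x := by omega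
  have h13 : r * (r + 1) ≤ (r + 1) ^ 2 := by nlinarith
  have h14 : r * (r + 1) * a ≤ (r + 1) ^ 2 * a := Nat.mul_le_mul_right _ h13
  have h15 : x ≤ (r + 1) ^ 2 * a + (r + 1) ^ 2 := by omega
  nlinarith

/-- the pairs `(w, v)` -/
def Pr (p k q m : ℕ) : Finset (ℕ × ℕ) :=
  (V m ×ˢ Icc 1 (4 * m)).filter fun x => x.2 ≤ (x.1 - 1) / k ∧ ¬ p ∣ sv q x.1 x.2

lemma card_pairs {p k q m : ℕ} (hp : 2 ≤ p) (hk : 1 ≤ k) (hkp : k ≤ p - 1)
    (hq : ∀ w ∈ V m, ¬ w ∣ q) (hm : 2 * p ^ 2 ≤ m) :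
    (V m).card * m ≤ 2 * p ^ 2 * (Pr p k q m).card := by
  have h1 : (Pr p k q m).card = ∑ w ∈ V m, ((Icc 1 (4 * m)).filter
      fun v => v ≤ (w - 1) / k ∧ ¬ p ∣ sv q w v).card := by
    unfold Pr
    rw [card_filter, sum_product]
    refine sum_congr rfl fun v _ => ?_
    rw [card_filter]
  rw [h1, mul_sum, ← smul_eq_mul]
  refine card_nsmul_le_sum _ _ _ fun w hw => ?_
  have hw1 := mem_filter.1 hw
  have hw2 := mem_Ioc.1 hw1.1
  refine (card_good hp hk hkp hw1.2 (hq w hw) hm hw2.1).trans (Nat.mul_le_mul_left _ ?_)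
  refine card_le_card fun v hv => ?_
  rw [mem_filter, mem_Icc] at hv ⊢
  have h3 : (w - 1) / k ≤ w - 1 := Nat.div_le_self _ _
  exact ⟨⟨hv.1.1, by omega⟩, hv.1.2, hv.2⟩

/-- the number `c` of the pair `(w, v)` -/
lemma exists_c {p k q m w v : ℕ} (hp : 2 ≤ p) (hk : 1 ≤ k) (hkp : k ≤ p - 1) (hm1 : 1 ≤ m)
    (hm : 2 * p ^ 2 ≤ m) (hmq : (8 * m) ^ 3 ≤ q) (hw : w ∈ V m) (hwq : ¬ w ∣ q) (hv1 : 1 ≤ v)
    (hv : v ≤ (w - 1) / k) (hs : ¬ p ∣ sv q w v) :
    ∃ c : ℕ, c < q ∧ Rep p k q c ∧ q + v * sv q w v = c * w ∧ 0 < v * sv q w v ∧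
      v * sv q w v < 16 * m ^ 2 ∧ 16 * m ^ 2 ≤ c := by
  obtain ⟨hw1, hwp⟩ := mem_filter.1 hw
  rw [mem_Ioc] at hw1
  obtain ⟨hw1, hw2⟩ := hw1
  have hkv : k * v ≤ w - 1 := by
    calc k * v ≤ k * ((w - 1) / k) := Nat.mul_le_mul_left _ hv
      _ ≤ w - 1 := Nat.mul_div_le _ _
  have hvk : v ≤ k * v := Nat.le_mul_of_pos_left _ hk
  have hvw : v < w := by have := hwp.pos; omega
  obtain ⟨hsw, hs1, hdvd⟩ := sv_spec hwp hwq hv1 hvw
  obtain ⟨s, hsd⟩ : ∃ s : ℕ, s = sv q w v := ⟨_, rfl⟩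
  rw [← hsd] at hs hsw hs1 hdvd ⊢
  obtain ⟨c, hc⟩ := hdvd
  rw [mul_comm w c] at hc
  have hX : 512 * m ^ 3 ≤ q := by
    have : (8 * m) ^ 3 = 512 * m ^ 3 := by ring
    omega
  have hvs : v * s < 16 * m ^ 2 := by
    calc v * s < w * w := Nat.mul_lt_mul'' hvw hsw
      _ ≤ (4 * m) * (4 * m) := Nat.mul_le_mul hw2 hw2
      _ = 16 * m ^ 2 := by ring
  have hcge : 16 * m ^ 2 ≤ c := by
    by_contra hcon
    push Not at hcon
    have h1' : c * w < (16 * m ^ 2) * (4 * m) := by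
      calc c * w < (16 * m ^ 2) * w := Nat.mul_lt_mul_of_pos_right hcon (by omega)
        _ ≤ _ := Nat.mul_le_mul_left _ hw2
    have h2 : (16 * m ^ 2) * (4 * m) = 64 * m ^ 3 := by ring
    omega
  have hmm : m ≤ m ^ 2 := Nat.le_self_pow (by norm_num) m
  have hm3 : m ^ 2 ≤ m ^ 3 := Nat.pow_le_pow_right hm1 (by norm_num)
  have hsc : s < c := by omega
  have hcq : c < q := by
    have h1 : c * w < q * w := by
      rw [← hc]
      have h3 : q * 2 ≤ q * w := Nat.mul_le_mul_left _ hwp.two_le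
      omega
    exact lt_of_mul_lt_mul_right h1 (Nat.zero_le _)
  have hcs : c * s ≤ q := by
    have h1 : c * s * w ≤ q * w := by
      have e1 : c * s * w = (q + v * s) * s := by
        calc c * s * w = (c * w) * s := by ring
          _ = _ := by rw [← hc]
      rw [e1]
      obtain ⟨t, ht⟩ : ∃ t, w = s + 1 + t := ⟨w - s - 1, by omega⟩
      have h2 : v * s * s ≤ q := by
        have h3 : v * s * s ≤ (16 * m ^ 2) * (4 * m) := Nat.mul_le_mul hvs.le (by omega)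
        have h4 : (16 * m ^ 2) * (4 * m) = 64 * m ^ 3 := by ring
        omega
      calc (q + v * s) * s = q * s + v * s * s := by ring
        _ ≤ q * s + q := by omega
        _ ≤ q * s + q + q * t := Nat.le_add_right _ _
        _ = q * w := by rw [ht]; ring
    exact le_of_mul_le_mul_right h1 hwp.pos
  have hkc : k * c < q := by
    have h1 : k * c * w < q * w := by
      have e1 : k * c * w = k * (q + v * s) := by rw [hc]; ring
      rw [e1]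
      have h2 : q + v * s ≤ 2 * q := by omega
      have hpp : p ≤ p ^ 2 := Nat.le_self_pow (by norm_num) p
      have h3 : 2 * k < w := by omega
      have hq0 : 0 < q := by omega
      calc k * (q + v * s) ≤ k * (2 * q) := Nat.mul_le_mul_left _ h2
        _ = (2 * k) * q := by ring
        _ < w * q := Nat.mul_lt_mul_of_pos_right h3 hq0
        _ = q * w := by ring
    exact lt_of_mul_lt_mul_right h1 (Nat.zero_le _)
  refine ⟨c, hcq, ⟨v, w, s, hv1, by omega, by omega, hcs, hsc, hc, hs, hkc⟩, hc, ?_, hvs, hcge⟩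
  exact Nat.mul_pos hv1 hs1

/-- the count -/
lemma count {p k q m D : ℕ} (hp : 2 ≤ p) (hk : 1 ≤ k) (hkp : k ≤ p - 1) (hq : q.Prime)
    (hm1 : 1 ≤ m) (hm : 2 * p ^ 2 ≤ m) (hmq : (8 * m) ^ 3 ≤ q)
    (hD : ∀ n : ℕ, 1 ≤ n → n ≤ q → n.divisors.card ≤ D) :
    (V m).card * m ≤ 2 * p ^ 2 * (D * {c : ℕ | c < q ∧ Rep p k q c}.ncard) := by
  classical
  have hX : 512 * m ^ 3 ≤ q := by
    have : (8 * m) ^ 3 = 512 * m ^ 3 := by ring
    omega
  have hmm : m ≤ m ^ 2 := Nat.le_self_pow (by norm_num) m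
  have hm3 : m ^ 2 ≤ m ^ 3 := Nat.pow_le_pow_right hm1 (by norm_num)
  have hVq : ∀ w ∈ V m, ¬ w ∣ q := by
    intro w hw hdv
    obtain ⟨hw1, hwp⟩ := mem_filter.1 hw
    rw [mem_Ioc] at hw1
    rcases (Nat.dvd_prime hq).1 hdv with h2 | h2
    · exact hwp.one_lt.ne' h2
    · omega
  set T : Finset ℕ := (range q).filter (fun c => Rep p k q c) with hT
  have hTc : {c : ℕ | c < q ∧ Rep p k q c}.ncard = T.card := by
    rw [← Set.ncard_coe_finset]
    congr 1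
    ext c
    simp [hT]
  rw [hTc]
  have hex : ∀ x : ℕ × ℕ, ∃ c : ℕ, x ∈ Pr p k q m → c < q ∧ Rep p k q c ∧
      q + x.2 * sv q x.1 x.2 = c * x.1 ∧ 0 < x.2 * sv q x.1 x.2 ∧
      x.2 * sv q x.1 x.2 < 16 * m ^ 2 ∧ 16 * m ^ 2 ≤ c := by
    intro x
    by_cases hx : x ∈ Pr p k q m
    · have h1 := mem_filter.1 hx
      have h2 := mem_product.1 h1.1
      obtain ⟨c, h⟩ := exists_c hp hk hkp hm1 hm hmq h2.1 (hVq _ h2.1) (mem_Icc.1 h2.2).1
        h1.2.1 h1.2.2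
      exact ⟨c, fun _ => h⟩
    · exact ⟨0, fun h => absurd h hx⟩
  choose f hf using hex
  have hle := card_le_mul_card_image_of_maps_to (f := f) (s := Pr p k q m) (t := T)
    (fun x hx => by
      obtain ⟨h1, h2, -⟩ := hf x hx
      rw [hT, mem_filter, mem_range]
      exact ⟨h1, h2⟩) D ?_
  · exact (card_pairs hp hk hkp hVq hm).trans (Nat.mul_le_mul_left _ hle)
  intro c _
  -- all pairs with the same `c` have the same `w` and the same product `v s`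
  have key : ∀ x y : ℕ × ℕ, x ∈ Pr p k q m → f x = c → y ∈ Pr p k q m → f y = c →
      x.1 = y.1 := by
    intro x y hx hxc hy hyc
    obtain ⟨-, -, h3, h4, h5, h6⟩ := hf x hx
    obtain ⟨-, -, k3, k4, k5, k6⟩ := hf y hy
    rw [hxc] at h3 h6
    rw [hyc] at k3
    rcases lt_trichotomy x.1 y.1 with h | h | h
    · exfalso
      have h7 : c * x.1 + c ≤ c * y.1 := by
        calc c * x.1 + c = c * (x.1 + 1) := by ring
          _ ≤ c * y.1 := Nat.mul_le_mul_left _ h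
      omega
    · exact h
    · exfalso
      have h7 : c * y.1 + c ≤ c * x.1 := by
        calc c * y.1 + c = c * (y.1 + 1) := by ring
          _ ≤ c * x.1 := Nat.mul_le_mul_left _ h
      omega
  rcases ((Pr p k q m).filter (fun x => f x = c)).eq_empty_or_nonempty with he | ⟨x0, hx0⟩
  · rw [he, card_empty]
    exact Nat.zero_le _
  rw [mem_filter] at hx0
  obtain ⟨-, -, a3, a4, a5, -⟩ := hf x0 hx0.1
  rw [hx0.2] at a3
  obtain ⟨M, hM⟩ : ∃ M : ℕ, M = x0.2 * sv q x0.1 x0.2 := ⟨_, rfl⟩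
  rw [← hM] at a3 a4 a5
  refine le_trans ?_ (hD M a4 (by omega))
  refine card_le_card_of_injOn (fun x : ℕ × ℕ => x.2) ?_ ?_
  · intro x hx
    rw [mem_coe, mem_filter] at hx
    obtain ⟨-, -, b3, -, -, -⟩ := hf x hx.1
    rw [hx.2, key x x0 hx.1 hx.2 hx0.1 hx0.2] at b3
    rw [mem_coe, Nat.mem_divisors]
    have b4 : M = x.2 * sv q x0.1 x.2 := by omega
    exact ⟨⟨sv q x0.1 x.2, b4⟩, by omega⟩
  · intro x hx y hy h
    rw [mem_coe, mem_filter] at hx hy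
    exact Prod.ext (key x y hx.1 hx.2 hy.1 hy.2) h

theorem proof : S_C := by
  intro p hp hp2 ε hε
  obtain ⟨C, hC, hdiv⟩ := Pool.Agent.H510R2.divisor_bound (ε / 2) (by linarith)
  obtain ⟨M, hM⟩ := cheb
  -- the logarithm
  have hK : (0 : ℝ) < 512 * (p : ℝ) ^ 2 * C := by
    have : (0 : ℝ) < p := by exact_mod_cast hp.pos
    positivity
  have h := (isLittleO_log_rpow_atTop (show (0 : ℝ) < ε / 2 by linarith)).bound
    (show (0 : ℝ) < 1 / (512 * (p : ℝ) ^ 2 * C) by positivity)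
  have h1 := tendsto_natCast_atTop_atTop (R := ℝ) |>.eventually h
  obtain ⟨Q1, hQ1⟩ := Filter.eventually_atTop.1 h1
  refine ⟨max Q1 ((8 * (M + 2 * p ^ 2 + 16 + 1)) ^ 3), fun k q hk hkp hq hQq => ?_⟩
  have hQ1q : Q1 ≤ q := (le_max_left _ _).trans hQq
  have hQ2q : (8 * (M + 2 * p ^ 2 + 16 + 1)) ^ 3 ≤ q := (le_max_right _ _).trans hQq
  -- the scale `m`
  obtain ⟨m, hm1, hm2⟩ : ∃ m : ℕ, (8 * m) ^ 3 ≤ q ∧ q < (8 * (m + 1)) ^ 3 := by
    have hex : ∃ m : ℕ, q < (8 * (m + 1)) ^ 3 := ⟨q, by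
      calc q < 8 * (q + 1) := by omega
        _ ≤ (8 * (q + 1)) ^ 3 := Nat.le_self_pow (by norm_num) _⟩
    classical
    refine ⟨Nat.find hex, ?_, Nat.find_spec hex⟩
    rcases Nat.eq_zero_or_pos (Nat.find hex) with h0 | h0
    · rw [h0]
      norm_num
    · have h1 := Nat.find_min hex (m := Nat.find hex - 1) (by omega)
      rw [Nat.sub_add_cancel h0] at h1
      omega
  have hmM : M + 2 * p ^ 2 + 16 < m + 1 := by
    by_contra hcon
    push Not at hcon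
    have h1 : (8 * (m + 1)) ^ 3 ≤ (8 * (M + 2 * p ^ 2 + 16 + 1)) ^ 3 :=
      Nat.pow_le_pow_left (by omega) 3
    omega
  have hch := hM m (by omega)
  -- the divisor bound
  have hq1 : (1 : ℝ) < q := by exact_mod_cast hq.one_lt
  have hq0 : (0 : ℝ) < q := by linarith
  have hD : ∀ n : ℕ, 1 ≤ n → n ≤ q → n.divisors.card ≤ ⌊C * (q : ℝ) ^ (ε / 2)⌋₊ := by
    intro n hn hnq
    apply Nat.le_floor
    refine (hdiv n hn).trans ?_
    refine mul_le_mul_of_nonneg_left ?_ hC.le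
    exact Real.rpow_le_rpow (by positivity) (by exact_mod_cast hnq) (by linarith)
  have hcount := count hp.two_le hk hkp hq (by omega) (by omega) hm1 hD
  obtain ⟨T, hT⟩ : ∃ T : ℕ, T = {c : ℕ | c < q ∧ Rep p k q c}.ncard := ⟨_, rfl⟩
  rw [← hT] at hcount ⊢
  have hcount' : ((V m).card : ℝ) * m ≤ 2 * (p : ℝ) ^ 2 * (C * (q : ℝ) ^ (ε / 2) * T) := by
    have h2 : ((V m).card : ℝ) * m ≤
        2 * (p : ℝ) ^ 2 * ((⌊C * (q : ℝ) ^ (ε / 2)⌋₊ : ℝ) * T) := by exact_mod_cast hcount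
    refine h2.trans ?_
    refine mul_le_mul_of_nonneg_left ?_ (by positivity)
    refine mul_le_mul_of_nonneg_right ?_ (Nat.cast_nonneg _)
    exact Nat.floor_le (by positivity)
  have hmr : (1 : ℝ) ≤ m := by
    have : 1 ≤ m := by omega
    exact_mod_cast this
  have h4mq : 4 * m ≤ q := by
    have h5 : 4 * m ≤ (8 * m) ^ 3 := by
      calc 4 * m ≤ 8 * m := by omega
        _ ≤ (8 * m) ^ 3 := Nat.le_self_pow (by norm_num) _
    omega
  have hlog1 : Real.log ((4 * m : ℕ) : ℝ) ≤ Real.log q :=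
    Real.log_le_log (by
      have : 0 < 4 * m := by omega
      exact_mod_cast this) (by exact_mod_cast h4mq)
  have hlogq : 0 < Real.log q := Real.log_pos hq1
  have hpow : (q : ℝ) ^ ((2 : ℝ) / 3) ≤ 256 * (m : ℝ) ^ 2 := by
    have h5 : (q : ℝ) ≤ ((8 * ((m : ℝ) + 1))) ^ (3 : ℕ) := by
      have : (q : ℝ) ≤ (((8 * (m + 1)) ^ 3 : ℕ) : ℝ) := by exact_mod_cast hm2.le
      push_cast at this
      exact this
    calc (q : ℝ) ^ ((2 : ℝ) / 3) ≤ (((8 * ((m : ℝ) + 1))) ^ (3 : ℕ)) ^ ((2 : ℝ) / 3) :=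
          Real.rpow_le_rpow (by linarith) h5 (by norm_num)
      _ = (8 * ((m : ℝ) + 1)) ^ (2 : ℕ) := by
          rw [← Real.rpow_natCast, ← Real.rpow_mul (by positivity), ← Real.rpow_natCast]
          congr 1
          norm_num
      _ ≤ 256 * (m : ℝ) ^ 2 := by nlinarith
  -- logarithm against the power
  have hlog2 : 512 * (p : ℝ) ^ 2 * C * Real.log q ≤ (q : ℝ) ^ (ε / 2) := by
    have h2 := hQ1 q hQ1q
    rw [Real.norm_of_nonneg hlogq.le, Real.norm_of_nonneg (by positivity)] at h2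
    calc 512 * (p : ℝ) ^ 2 * C * Real.log q
        ≤ 512 * (p : ℝ) ^ 2 * C * (1 / (512 * (p : ℝ) ^ 2 * C) * (q : ℝ) ^ (ε / 2)) :=
          mul_le_mul_of_nonneg_left h2 hK.le
      _ = (q : ℝ) ^ (ε / 2) := by
          rw [← mul_assoc, mul_one_div_cancel hK.ne', one_mul]
  have hsplit : (q : ℝ) ^ ((2 : ℝ) / 3) = (q : ℝ) ^ (2 / 3 - ε) * (q : ℝ) ^ (ε / 2) *
      (q : ℝ) ^ (ε / 2) := by
    rw [← Real.rpow_add hq0, ← Real.rpow_add hq0]
    congr 1
    ring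
  have hη : 0 < (q : ℝ) ^ (ε / 2) := Real.rpow_pos_of_pos hq0 _
  have hA : 0 < (q : ℝ) ^ (2 / 3 - ε) := Real.rpow_pos_of_pos hq0 _
  -- `m ^ 2 ≤ 2 p^2 C q^η T log q`
  have hmm : (m : ℝ) ^ 2 ≤ 2 * (p : ℝ) ^ 2 * (C * (q : ℝ) ^ (ε / 2) * T) * Real.log q := by
    calc (m : ℝ) ^ 2 = m * m := by ring
      _ ≤ ((V m).card * Real.log ((4 * m : ℕ) : ℝ)) * m :=
          mul_le_mul_of_nonneg_right hch (by linarith)
      _ ≤ ((V m).card * Real.log q) * m := by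
          refine mul_le_mul_of_nonneg_right ?_ (by linarith)
          exact mul_le_mul_of_nonneg_left hlog1 (by positivity)
      _ = ((V m).card * m) * Real.log q := by ring
      _ ≤ _ := mul_le_mul_of_nonneg_right hcount' hlogq.le
  have hfin : (q : ℝ) ^ (2 / 3 - ε) * ((q : ℝ) ^ (ε / 2) * (512 * (p : ℝ) ^ 2 * C * Real.log q)) ≤
      (T : ℝ) * ((q : ℝ) ^ (ε / 2) * (512 * (p : ℝ) ^ 2 * C * Real.log q)) := by
    calc (q : ℝ) ^ (2 / 3 - ε) * ((q : ℝ) ^ (ε / 2) * (512 * (p : ℝ) ^ 2 * C * Real.log q))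
        ≤ (q : ℝ) ^ (2 / 3 - ε) * ((q : ℝ) ^ (ε / 2) * (q : ℝ) ^ (ε / 2)) :=
          mul_le_mul_of_nonneg_left (mul_le_mul_of_nonneg_left hlog2 hη.le) hA.le
      _ = (q : ℝ) ^ ((2 : ℝ) / 3) := by rw [hsplit]; ring
      _ ≤ 256 * (m : ℝ) ^ 2 := hpow
      _ ≤ 256 * (2 * (p : ℝ) ^ 2 * (C * (q : ℝ) ^ (ε / 2) * T) * Real.log q) := by linarith
      _ = _ := by ring
  exact le_of_mul_le_mul_right hfin (mul_pos hη (mul_pos hK hlogq))

end Pool.Agent.U332.LK.C
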