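import Mathlib
import Pool.Agent.U332.GX.Tot

/-!
# The polynomial `q ^ k (B_k(x / q) - B_k)` over the Witt vectors and its differences
-/

set_option autoImplicit false

namespace Pool.Agent.U332.LK

open Finset Pool.Agent.U332.GX Nat

section fd

variable {R : Type} [CommRing R]

lemma fd_key (k : ℕ) (f : R → R) :
    ∑ i ∈ range (k + 1), (-1 : R) ^ i * (k.choose i : R) * f (i : R) =
      (-1) ^ k * (fwdDiff (1 : R))^[k] f 0 := by
  rw [fwdDiff_iter_eq_sum_shift, mul_sum]
  refine sum_congr rfl (fun i hi => ?_)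
  have hik : i ≤ k := Nat.lt_succ_iff.1 (mem_range.1 hi)
  rw [zsmul_eq_mul, nsmul_one, zero_add]
  push_cast
  have h1 : (-1 : R) ^ k * (-1) ^ (k - i) = (-1) ^ i := by
    have h2 : k = i + (k - i) := by omega
    calc (-1 : R) ^ k * (-1) ^ (k - i) = (-1 : R) ^ (i + (k - i)) * (-1) ^ (k - i) := by
          rw [← h2]
      _ = (-1 : R) ^ i * ((-1) ^ (k - i) * (-1) ^ (k - i)) := by ring
      _ = (-1 : R) ^ i := by
          rw [← mul_pow]
          simp
  rw [← h1]
  ring

lemma fd_lt (z c : R) {j k : ℕ} (h : j < k) :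
    ∑ i ∈ range (k + 1), (-1 : R) ^ i * (k.choose i : R) * (z - c * i) ^ j = 0 := by
  have h1 := fd_key k (fun r : R => (z - c * r) ^ j)
  have h2 : (fun r : R => (z - c * r) ^ j) = fun r : R =>
      ∑ l ∈ range k, ((j.choose l : R) * z ^ (j - l) * (-c) ^ l) * r ^ l := by
    funext r
    have h3 : z - c * r = (-c * r) + z := by ring
    rw [h3, add_pow]
    have h4 : ∑ l ∈ range k, ((j.choose l : R) * z ^ (j - l) * (-c) ^ l) * r ^ l =
        ∑ l ∈ range (j + 1), ((j.choose l : R) * z ^ (j - l) * (-c) ^ l) * r ^ l := by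
      symm
      apply sum_subset
      · intro l hl
        rw [mem_range] at *
        omega
      · intro l _ hl
        rw [mem_range] at hl
        rw [Nat.choose_eq_zero_of_lt (by omega)]
        simp
    rw [h4]
    refine sum_congr rfl (fun l _ => ?_)
    rw [mul_pow]
    ring
  rw [h2, fwdDiff_iter_sum_mul_pow_eq_zero, Pi.zero_apply, mul_zero] at h1
  exact h1

lemma fd_eq (z c : R) (k : ℕ) :
    ∑ i ∈ range (k + 1), (-1 : R) ^ i * (k.choose i : R) * (z - c * i) ^ k = (k ! : R) * c ^ k := by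
  -- `(z - c i)^k = (-c i)^k + lower`
  have h0 : ∀ r : R, (z - c * r) ^ k = (-c) ^ k * r ^ k +
      ∑ l ∈ range k, ((k.choose l : R) * z ^ (k - l) * (-c) ^ l) * r ^ l := by
    intro r
    have h3 : z - c * r = (-c * r) + z := by ring
    rw [h3, add_pow, sum_range_succ, add_comm]
    congr 1
    · rw [Nat.sub_self, pow_zero, Nat.choose_self, Nat.cast_one, mul_one, mul_one, mul_pow]
    · refine sum_congr rfl (fun l _ => ?_)
      rw [mul_pow]
      ring
  have h1 := fd_key k (fun r : R => ∑ l ∈ range k, ((k.choose l : R) * z ^ (k - l) * (-c) ^ l) * r ^ l)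
  rw [fwdDiff_iter_sum_mul_pow_eq_zero] at h1
  have h2 := fd_key k (fun r : R => r ^ k)
  rw [fwdDiff_iter_eq_factorial] at h2
  have h3 : ∑ i ∈ range (k + 1), (-1 : R) ^ i * (k.choose i : R) * (z - c * i) ^ k =
      (-c) ^ k * (∑ i ∈ range (k + 1), (-1 : R) ^ i * (k.choose i : R) * (i : R) ^ k) +
      ∑ i ∈ range (k + 1), (-1 : R) ^ i * (k.choose i : R) *
        ∑ l ∈ range k, ((k.choose l : R) * z ^ (k - l) * (-c) ^ l) * (i : R) ^ l := by
    rw [mul_sum, ← sum_add_distrib]
    refine sum_congr rfl (fun i _ => ?_)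
    rw [h0]
    ring
  rw [h3, h1, h2]
  have h4 : (-c) ^ k * ((-1) ^ k) = c ^ k := by
    rw [← mul_pow]
    simp
  simp only [Pi.zero_apply, mul_zero, add_zero, Pi.natCast_apply]
  rw [← mul_assoc, h4]
  ring

end fd

section bern

variable (p : ℕ) [hp : Fact p.Prime]

/-- the fraction field of the ring of Witt vectors -/
abbrev KK : Type := FractionRing (WW p)

instance charZero_KK : CharZero (KK p) := by
  apply charZero_of_inj_zero
  intro n hn
  have h1 : algebraMap (WW p) (KK p) (n : WW p) = 0 := by rw [map_natCast]; exact hn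
  have h2 : (n : WW p) = 0 := by
    apply IsFractionRing.injective (WW p) (KK p)
    rw [h1, map_zero]
  exact_mod_cast h2

lemma nat_unit {n : ℕ} (hn : ¬ p ∣ n) : IsUnit (n : WW p) := by
  rcases dich p (n : WW p) with h | h
  · exact h
  · exact absurd (nat_dvd p n h) hn

lemma bern_int (j : ℕ) (hj : j + 1 < p) :
    ∃ b : WW p, algebraMap (WW p) (KK p) b = ((bernoulli j : ℚ) : KK p) := by
  induction j using Nat.strong_induction_on with
  | _ j ih =>
    have h1 : ∀ i : ℕ, ∃ b : WW p, i < j → algebraMap (WW p) (KK p) b = ((bernoulli i : ℚ) : KK p) := by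
      intro i
      by_cases hi : i < j
      · obtain ⟨b, hb⟩ := ih i hi (by omega)
        exact ⟨b, fun _ => hb⟩
      · exact ⟨0, fun h => absurd h hi⟩
    choose b' hb' using h1
    have hnd : ¬ p ∣ j + 1 := fun h => by
      have := Nat.le_of_dvd (by omega) h
      omega
    obtain ⟨u, hu⟩ := nat_unit p hnd
    have h2 := sum_bernoulli (j + 1)
    rw [sum_range_succ, Nat.choose_succ_self_right] at h2
    refine ⟨((u⁻¹ : (WW p)ˣ) : WW p) * ((if j + 1 = 1 then 1 else 0) -
      ∑ i ∈ range j, ((j + 1).choose i : WW p) * b' i), ?_⟩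
    have hu' : algebraMap (WW p) (KK p) ((u⁻¹ : (WW p)ˣ) : WW p) * ((j : KK p) + 1) = 1 := by
      have h5 : algebraMap (WW p) (KK p) ((j + 1 : ℕ) : WW p) = (j : KK p) + 1 := by
        rw [map_natCast]; push_cast; ring
      rw [← h5, ← hu, ← map_mul, Units.inv_mul, map_one]
    have hs : algebraMap (WW p) (KK p) ((if j + 1 = 1 then 1 else 0) -
        ∑ i ∈ range j, ((j + 1).choose i : WW p) * b' i) = ((j : KK p) + 1) *
          ((bernoulli j : ℚ) : KK p) := by
      rw [map_sub, map_sum]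
      have h6 : ∀ i ∈ range j, algebraMap (WW p) (KK p) (((j + 1).choose i : WW p) * b' i) =
          ((j + 1).choose i : KK p) * ((bernoulli i : ℚ) : KK p) := by
        intro i hi
        rw [map_mul, map_natCast, hb' i (mem_range.1 hi)]
      rw [sum_congr rfl h6]
      have h7 : algebraMap (WW p) (KK p) (if j + 1 = 1 then 1 else 0) =
          (((if j + 1 = 1 then 1 else 0 : ℚ)) : KK p) := by
        split_ifs <;> simp
      rw [h7, ← h2]
      push_cast
      ring
    rw [map_mul, hs, ← mul_assoc, hu', one_mul]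

open Classical in
/-- the Bernoulli number `B_j` in the ring of Witt vectors, for `j ≤ p - 2` -/
noncomputable def bb (j : ℕ) : WW p := if h : j + 1 < p then (bern_int p j h).choose else 0

lemma bb_map {j : ℕ} (h : j + 1 < p) :
    algebraMap (WW p) (KK p) (bb p j) = ((bernoulli j : ℚ) : KK p) := by
  unfold bb
  rw [dif_pos h]
  exact (bern_int p j h).choose_spec

/-- `q ^ k (B_k(x / q) - B_k)` -/
noncomputable def ff (k q x : ℕ) : WW p :=
  ∑ j ∈ range k, (k.choose j : WW p) * bb p j * (q : WW p) ^ j * (x : WW p) ^ (k - j)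

lemma F_eq (k q : ℕ) (hq : q ≠ 0) (x : ℚ) :
    ∑ j ∈ range k, (k.choose j : ℚ) * bernoulli j * (q : ℚ) ^ j * x ^ (k - j) =
      (q : ℚ) ^ k * ((Polynomial.bernoulli k).eval (x / q) - bernoulli k) := by
  have hq' : (q : ℚ) ≠ 0 := by exact_mod_cast hq
  unfold Polynomial.bernoulli
  rw [Polynomial.eval_finsetSum, sum_range_succ]
  simp only [Polynomial.eval_monomial]
  rw [Nat.sub_self, pow_zero, Nat.choose_self]
  push_cast
  rw [mul_one, mul_one, add_sub_cancel_right, mul_sum]
  refine sum_congr rfl (fun j hj => ?_)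
  have hjk : j < k := mem_range.1 hj
  have h1 : (q : ℚ) ^ k = (q : ℚ) ^ j * (q : ℚ) ^ (k - j) := by
    rw [← pow_add]
    congr 1
    omega
  rw [h1, div_pow]
  field_simp

lemma F_shift (k q : ℕ) (hk : 1 ≤ k) (hq : q ≠ 0) (x : ℚ) :
    ∑ j ∈ range k, (k.choose j : ℚ) * bernoulli j * (q : ℚ) ^ j * (x + q) ^ (k - j) -
      ∑ j ∈ range k, (k.choose j : ℚ) * bernoulli j * (q : ℚ) ^ j * x ^ (k - j) =
      k * q * x ^ (k - 1) := by
  have hq' : (q : ℚ) ≠ 0 := by exact_mod_cast hq
  rw [F_eq k q hq, F_eq k q hq]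
  have h1 : (x + q) / (q : ℚ) = 1 + x / q := by
    field_simp
    ring
  rw [h1, Polynomial.bernoulli_eval_one_add]
  obtain ⟨l, rfl⟩ : ∃ l, k = l + 1 := ⟨k - 1, by omega⟩
  rw [Nat.add_sub_cancel, div_pow]
  field_simp
  ring

lemma ff_map {k q : ℕ} (hk : k < p) (x : ℕ) :
    algebraMap (WW p) (KK p) (ff p k q x) = ((∑ j ∈ range k, (k.choose j : ℚ) * bernoulli j *
      (q : ℚ) ^ j * (x : ℚ) ^ (k - j) : ℚ) : KK p) := by
  unfold ff
  rw [map_sum, Rat.cast_sum]
  refine sum_congr rfl (fun j hj => ?_)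
  have := mem_range.1 hj
  rw [map_mul, map_mul, map_mul, map_natCast, map_pow, map_pow, map_natCast, map_natCast,
    bb_map p (by omega)]
  simp only [Rat.cast_mul, Rat.cast_pow, Rat.cast_natCast]

lemma ff_shift {k q : ℕ} (hk1 : 1 ≤ k) (hk : k < p) (hq : q ≠ 0) (x : ℕ) :
    ff p k q (x + q) - ff p k q x = (k : WW p) * q * (x : WW p) ^ (k - 1) := by
  apply IsFractionRing.injective (WW p) (KK p)
  rw [map_sub, ff_map p hk, ff_map p hk]
  have h := F_shift k q hk1 hq (x : ℚ)
  have h2 : (((∑ j ∈ range k, (k.choose j : ℚ) * bernoulli j * (q : ℚ) ^ j *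
      ((x : ℚ) + q) ^ (k - j) - ∑ j ∈ range k, (k.choose j : ℚ) * bernoulli j * (q : ℚ) ^ j *
        (x : ℚ) ^ (k - j) : ℚ)) : KK p) = ((k * q * (x : ℚ) ^ (k - 1) : ℚ) : KK p) := by
    rw [h]
  rw [Rat.cast_sub] at h2
  rw [Nat.cast_add, h2]
  simp only [Rat.cast_mul, Rat.cast_pow, Rat.cast_natCast, map_mul, map_pow, map_natCast]

lemma ff_sub {k q : ℕ} (hk1 : 1 ≤ k) (hk : k < p) (hq : q ≠ 0) (M y : ℕ) (h : M * q ≤ y) :
    ff p k q (y - M * q) = ff p k q y - (k : WW p) * q *
      ∑ m ∈ range M, ((y - (m + 1) * q : ℕ) : WW p) ^ (k - 1) := by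
  induction M with
  | zero => simp
  | succ M ih =>
    have h1 : M * q ≤ y := le_trans (Nat.mul_le_mul_right q (Nat.le_succ M)) h
    have h2 := ih h1
    have h3 := ff_shift p hk1 hk hq (y - (M + 1) * q)
    have h4 : y - (M + 1) * q + q = y - M * q := by
      have : (M + 1) * q = M * q + q := by ring
      omega
    rw [h4] at h3
    rw [sum_range_succ]
    linear_combination h2 - h3

lemma ff_fd {k q : ℕ} (c b : ℕ) (hb : k ≤ b) (hk0 : 1 ≤ k) :
    ∑ i ∈ range (k + 1), (-1 : WW p) ^ i * (k.choose i : WW p) * ff p k q (c * (b - i)) =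
      (k ! : WW p) * (c : WW p) ^ k := by
  have hb0 : bb p 0 = 1 := by
    apply IsFractionRing.injective (WW p) (KK p)
    rw [bb_map p (by have := hp.out.two_le; omega), map_one, bernoulli_zero, Rat.cast_one]
  have h1 : ∀ i ∈ range (k + 1), ((c * (b - i) : ℕ) : WW p) = (c : WW p) * b - c * i := by
    intro i hi
    have : i ≤ b := by
      have := mem_range.1 hi
      omega
    push_cast [Nat.cast_sub this]
    ring
  have h2 : ∀ i ∈ range (k + 1), (-1 : WW p) ^ i * (k.choose i : WW p) * ff p k q (c * (b - i)) =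
      ∑ j ∈ range k, ((k.choose j : WW p) * bb p j * (q : WW p) ^ j) *
        ((-1 : WW p) ^ i * (k.choose i : WW p) * ((c : WW p) * b - c * i) ^ (k - j)) := by
    intro i hi
    unfold ff
    rw [h1 i hi, mul_sum]
    refine sum_congr rfl (fun j _ => ?_)
    ring
  rw [sum_congr rfl h2, sum_comm]
  have h3 : ∀ j ∈ range k, ∑ i ∈ range (k + 1), ((k.choose j : WW p) * bb p j * (q : WW p) ^ j) *
        ((-1 : WW p) ^ i * (k.choose i : WW p) * ((c : WW p) * b - c * i) ^ (k - j)) =
        if j = 0 then (k ! : WW p) * (c : WW p) ^ k else 0 := by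
    intro j hj
    have hjk := mem_range.1 hj
    rw [← mul_sum]
    split_ifs with h0
    · subst h0
      rw [Nat.sub_zero, fd_eq, hb0]
      simp
    · rw [fd_lt _ _ (by omega), mul_zero]
  rw [sum_congr rfl h3, sum_ite_eq' (range k) 0, if_pos (mem_range.2 (by omega))]

/-- The identity for the `k`-th difference of `ff` at the residues of `c (b - i)`. -/
lemma ff_window {k q : ℕ} (c b M : ℕ) (δ : Prop) [Decidable δ] (hb : k < b) (hk1 : 1 ≤ k) (hk : k < p)
    (hq : q ≠ 0) (hM : ∀ i, 1 ≤ i → i ≤ k → c * (b - i) / q = M)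
    (h0 : c * b / q = M + if δ then 1 else 0) :
    ∑ i ∈ range (k + 1), (-1 : WW p) ^ i * (k.choose i : WW p) * ff p k q (c * (b - i) % q) =
      (k ! : WW p) * (c : WW p) ^ k - (k : WW p) * q *
        (if δ then ((c * b % q : ℕ) : WW p) ^ (k - 1) else 0) := by
  -- the value at each residue
  have hmod : ∀ y : ℕ, ff p k q (y % q) = ff p k q y - (k : WW p) * q *
      ∑ m ∈ range (y / q), ((y - (m + 1) * q : ℕ) : WW p) ^ (k - 1) := by
    intro y
    have h1 : y % q = y - (y / q) * q := by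
      have := Nat.div_add_mod y q
      have h2 : q * (y / q) = (y / q) * q := mul_comm _ _
      omega
    rw [h1]
    exact ff_sub p hk1 hk hq (y / q) y (Nat.div_mul_le_self y q)
  have hsum : ∀ i ∈ range (k + 1), ∑ m ∈ range (c * (b - i) / q),
      ((c * (b - i) - (m + 1) * q : ℕ) : WW p) ^ (k - 1) =
      (∑ m ∈ range M, (((c : WW p) * b - (m + 1) * q) - c * i) ^ (k - 1)) +
        if i = 0 then (if δ then ((c * b % q : ℕ) : WW p) ^ (k - 1) else 0) else 0 := by
    intro i hi
    have hik : i ≤ k := Nat.lt_succ_iff.1 (mem_range.1 hi)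
    have hcast : ∀ m ∈ range M, ((c * (b - i) - (m + 1) * q : ℕ) : WW p) ^ (k - 1) =
        (((c : WW p) * b - (m + 1) * q) - c * i) ^ (k - 1) := by
      intro m hm
      have hmM := mem_range.1 hm
      have hle : (m + 1) * q ≤ c * (b - i) := by
        have h1 : M ≤ c * (b - i) / q := by
          rcases Nat.eq_zero_or_pos i with h | h
          · subst h
            rw [Nat.sub_zero, h0]
            exact Nat.le_add_right _ _
          · rw [hM i h hik]
        calc (m + 1) * q ≤ (c * (b - i) / q) * q := Nat.mul_le_mul_right q (by omega)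
          _ ≤ c * (b - i) := Nat.div_mul_le_self _ _
      have hib : i ≤ b := by omega
      rw [Nat.cast_sub hle]
      push_cast [Nat.cast_sub hib]
      congr 1
      ring
    rcases Nat.eq_zero_or_pos i with h | h
    · subst h
      rw [Nat.sub_zero] at hcast ⊢
      rw [if_pos rfl, h0]
      by_cases hδ : δ
      · rw [if_pos hδ, if_pos hδ, sum_range_succ, sum_congr rfl hcast]
        congr 3
        have := Nat.div_add_mod (c * b) q
        rw [h0, if_pos hδ, mul_comm] at this
        omega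
      · rw [if_neg hδ, if_neg hδ, add_zero, add_zero, sum_congr rfl hcast]
    · rw [hM i h hik, if_neg (by omega), add_zero, sum_congr rfl hcast]
  have h1 : ∀ i ∈ range (k + 1), (-1 : WW p) ^ i * (k.choose i : WW p) *
      ff p k q (c * (b - i) % q) =
      (-1 : WW p) ^ i * (k.choose i : WW p) * ff p k q (c * (b - i)) - (k : WW p) * q *
        ((∑ m ∈ range M, (-1 : WW p) ^ i * (k.choose i : WW p) *
          (((c : WW p) * b - (m + 1) * q) - c * i) ^ (k - 1)) +
        if i = 0 then (if δ then ((c * b % q : ℕ) : WW p) ^ (k - 1) else 0) else 0) := by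
    intro i hi
    rw [hmod, hsum i hi, ← mul_sum]
    by_cases h : i = 0
    · subst h
      rw [if_pos rfl, pow_zero, Nat.choose_zero_right, Nat.cast_one]
      ring
    · rw [if_neg h]
      ring
  rw [sum_congr rfl h1, sum_sub_distrib, ff_fd p c b hb.le hk1, ← mul_sum, sum_add_distrib,
    sum_comm]
  have h2 : ∀ m ∈ range M, ∑ i ∈ range (k + 1), (-1 : WW p) ^ i * (k.choose i : WW p) *
          (((c : WW p) * b - (m + 1) * q) - c * i) ^ (k - 1) = 0 :=
    fun m _ => fd_lt _ _ (by omega)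
  rw [sum_congr rfl h2, sum_const_zero, zero_add, sum_ite_eq' (range (k + 1)) 0,
    if_pos (mem_range.2 (by omega))]

end bern

end Pool.Agent.U332.LK
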