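import Mathlib
import Pool.Agent.U332.LK.P

/-!
# The rank argument for the sums of `q ^ k (B_k(x / q) - B_k) χ(x)`
-/

set_option autoImplicit false

namespace Pool.Agent.U332.LK

open Finset Pool.Agent.U332.GX Nat

section general

variable {R : Type} [CommRing R] [IsDomain R] {q : ℕ}

/-- the sum `∑ g(x) χ(x)` -/
noncomputable def ta [NeZero q] (g : ZMod q → R) (χ : DirichletCharacter R q) : R :=
  ∑ x : ZMod q, g x * χ x

lemma ortho [NeZero q] [HasEnoughRootsOfUnity R (Monoid.exponent (ZMod q)ˣ)] (hq : q.Prime)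
    (g : ZMod q → R) {x : ZMod q} (hx : x ≠ 0) :
    ((q - 1 : ℕ) : R) * g x = ∑ χ : DirichletCharacter R q, ta g χ * χ x⁻¹ := by
  have : Fact q.Prime := ⟨hq⟩
  have h2 : ∀ χ : DirichletCharacter R q, ta g χ * χ x⁻¹ =
      ∑ y : ZMod q, g y * (χ x⁻¹ * χ y) := by
    intro χ
    unfold ta
    rw [sum_mul]
    refine sum_congr rfl (fun y _ => ?_)
    ring
  rw [sum_congr rfl (fun χ _ => h2 χ), sum_comm]
  have hu : IsUnit x := isUnit_iff_ne_zero.2 hx
  have h3 : ∀ y : ZMod q, (∑ χ : DirichletCharacter R q, g y * (χ x⁻¹ * χ y)) =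
      if x = y then g y * (q.totient : R) else 0 := by
    intro y
    rw [← mul_sum, DirichletCharacter.sum_char_inv_mul_char_eq R hu y]
    split_ifs <;> simp
  rw [sum_congr rfl (fun y _ => h3 y), sum_ite_eq]
  simp only [mem_univ, if_true]
  rw [Nat.totient_prime hq]
  ring

/-- The window sums in terms of the characters. -/
lemma window [NeZero q] [HasEnoughRootsOfUnity R (Monoid.exponent (ZMod q)ˣ)] (hq : q.Prime)
    (g : ZMod q → R) {k c b : ℕ} (hc1 : 1 ≤ c) (hcq : c < q) (hb : k < b) (hbq : b < q) :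
    ((q - 1 : ℕ) : R) * (∑ i ∈ range (k + 1), (-1 : R) ^ i * (k.choose i : R) *
        g ((c : ZMod q) * ((b - i : ℕ) : ZMod q))) =
      ∑ χ : DirichletCharacter R q, ta g χ * (∑ i ∈ range (k + 1), (-1 : R) ^ i *
        (k.choose i : R) * χ ((b - i : ℕ) : ZMod q)⁻¹) * χ (c : ZMod q)⁻¹ := by
  have : Fact q.Prime := ⟨hq⟩
  have hc : (c : ZMod q) ≠ 0 := by
    intro h
    rw [ZMod.natCast_eq_zero_iff] at h
    exact absurd (Nat.le_of_dvd hc1 h) (by omega)
  have hbi : ∀ i ∈ range (k + 1), ((b - i : ℕ) : ZMod q) ≠ 0 := by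
    intro i hi h
    have := mem_range.1 hi
    rw [ZMod.natCast_eq_zero_iff] at h
    exact absurd (Nat.le_of_dvd (by omega) h) (by omega)
  rw [mul_sum]
  have h1 : ∀ i ∈ range (k + 1), ((q - 1 : ℕ) : R) * ((-1 : R) ^ i * (k.choose i : R) *
        g ((c : ZMod q) * ((b - i : ℕ) : ZMod q))) =
      ∑ χ : DirichletCharacter R q, ta g χ * ((-1 : R) ^ i * (k.choose i : R) *
        χ ((b - i : ℕ) : ZMod q)⁻¹) * χ (c : ZMod q)⁻¹ := by
    intro i hi
    have h2 := ortho hq g (mul_ne_zero hc (hbi i hi))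
    rw [mul_left_comm, h2, mul_sum]
    refine sum_congr rfl (fun χ _ => ?_)
    rw [mul_inv, map_mul]
    ring
  rw [sum_congr rfl h1, sum_comm]
  refine sum_congr rfl (fun χ _ => ?_)
  rw [mul_sum, sum_mul]

end general

open Classical in
/-- Linear algebra: a triangular system of values of a sum over characters, up to a term of rank one. -/
theorem rank_abs {A F ι : Type} [CommRing A] [Field F] [Fintype ι] (ρ : A →+* F) (T : Finset ℕ)
    (t : ι → A) (x y : ℕ → ι → A) (g : ℕ → A) (D : ℕ → ℕ → A)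
    (h : ∀ c ∈ T, ∀ a ∈ T, D c a = g a - ∑ χ, t χ * x c χ * y a χ)
    (h0 : ∀ c ∈ T, ∀ a ∈ T, a < c → ρ (D c a) = 0) (h1 : ∀ c ∈ T, ρ (D c c) ≠ 0) :
    T.card ≤ (univ.filter fun χ : ι => ρ (t χ) ≠ 0).card + 1 := by
  set S : Finset ι := univ.filter (fun χ : ι => ρ (t χ) ≠ 0) with hS
  let M : Matrix T T F := fun i j => ρ (D i.1 j.1)
  let A' : Matrix T (Option S) F := fun i o =>
    match o with
    | none => 1
    | some χ => -(ρ (t χ.1 * x i.1 χ.1))
  let B' : Matrix (Option S) T F := fun o j =>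
    match o with
    | none => ρ (g j.1)
    | some χ => ρ (y j.1 χ.1)
  have hAB : A' * B' = M := by
    ext i j
    rw [Matrix.mul_apply, Fintype.sum_option]
    have hj := congrArg ρ (h i.1 i.2 j.1 j.2)
    rw [map_sub, map_sum] at hj
    have hsum : (∑ χ : ι, ρ (t χ * x i.1 χ * y j.1 χ)) =
        ∑ χ : S, ρ (t χ.1 * x i.1 χ.1) * ρ (y j.1 χ.1) := by
      rw [Finset.sum_coe_sort S (fun χ => ρ (t χ * x i.1 χ) * ρ (y j.1 χ))]
      rw [hS, sum_filter_of_ne]
      · refine sum_congr rfl (fun χ _ => ?_)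
        rw [map_mul]
      · intro χ _ hne h2
        apply hne
        rw [map_mul, h2, zero_mul, zero_mul]
    rw [hsum] at hj
    show (1 : F) * ρ (g j.1) + ∑ χ : S, (-(ρ (t χ.1 * x i.1 χ.1))) * ρ (y j.1 χ.1) = ρ (D i.1 j.1)
    rw [hj, one_mul, sub_eq_add_neg, ← sum_neg_distrib]
    congr 1
    refine sum_congr rfl (fun χ _ => ?_)
    ring
  have hM : M.det ≠ 0 := by
    have htri : M.BlockTriangular id := fun i j hij => h0 i.1 i.2 j.1 j.2 hij
    rw [Matrix.det_of_isUpperTriangular htri]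
    exact prod_ne_zero_iff.2 (fun i _ => h1 i.1 i.2)
  have hunit : IsUnit (A' * B') := by
    rw [hAB, Matrix.isUnit_iff_isUnit_det]
    exact IsUnit.mk0 _ hM
  have h2 := Matrix.rank_of_isUnit (A' * B') hunit
  have h3 := (Matrix.rank_mul_le_left A' B').trans (Matrix.rank_le_card_width A')
  rw [h2, Fintype.card_option, Fintype.card_coe, Fintype.card_coe] at h3
  exact h3

variable (p : ℕ) [hp : Fact p.Prime]

/-- `q ^ k (B_k(x / q) - B_k)` as a function on the residues modulo `q` -/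
noncomputable def gg (k q : ℕ) (x : ZMod q) : WW p := ff p k q x.val

/-- the window sum -/
noncomputable def wd (k q a b : ℕ) : WW p := ∑ i ∈ range (k + 1), (-1 : WW p) ^ i *
  (k.choose i : WW p) * gg p k q ((a : ZMod q) * ((b - i : ℕ) : ZMod q))

lemma wd_eq (k q a b : ℕ) : wd p k q a b = ∑ i ∈ range (k + 1), (-1 : WW p) ^ i *
    (k.choose i : WW p) * ff p k q (a * (b - i) % q) := by
  unfold wd
  refine sum_congr rfl (fun i _ => ?_)
  unfold gg
  rw [← Nat.cast_mul, ZMod.val_natCast]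

/-- floors in a window -/
lemma win_floor {q k a b i : ℕ} (hi1 : 1 ≤ i) (hik : i ≤ k)
    (h : a * (b - 1) / q = a * (b - k) / q) : a * (b - i) / q = a * (b - k) / q := by
  apply le_antisymm
  · rw [← h]
    exact Nat.div_le_div_right (Nat.mul_le_mul_left a (by omega))
  · exact Nat.div_le_div_right (Nat.mul_le_mul_left a (by omega))

lemma wd_none {k q a b : ℕ} (hk1 : 1 ≤ k) (hk : k < p) (hq : q ≠ 0) (hb : k < b)
    (h : a * b / q = a * (b - k) / q) : wd p k q a b = (k ! : WW p) * (a : WW p) ^ k := by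
  have h2 : a * (b - 1) / q = a * (b - k) / q := by
    apply le_antisymm
    · rw [← h]
      exact Nat.div_le_div_right (Nat.mul_le_mul_left _ (by omega))
    · exact Nat.div_le_div_right (Nat.mul_le_mul_left _ (by omega))
  rw [wd_eq, ff_window p a b (a * (b - k) / q) False hb hk1 hk hq
    (fun l hl1 hlk => win_floor hl1 hlk h2) (by simpa using h)]
  rw [if_neg not_false, mul_zero, sub_zero]

lemma wd_jump {k q a b : ℕ} (hk1 : 1 ≤ k) (hk : k < p) (hq : q ≠ 0) (hb : k < b)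
    (h1 : a * b / q = a * (b - 1) / q + 1) (h2 : a * (b - 1) / q = a * (b - k) / q) :
    wd p k q a b = (k ! : WW p) * (a : WW p) ^ k - (k : WW p) * q *
      ((a * b % q : ℕ) : WW p) ^ (k - 1) := by
  rw [wd_eq, ff_window p a b (a * (b - k) / q) True hb hk1 hk hq
    (fun l hl1 hlk => win_floor hl1 hlk h2) (by rw [if_pos trivial, ← h2, h1])]
  rw [if_pos trivial]

theorem rank_le {k q : ℕ} [NeZero q] (hk1 : 1 ≤ k) (hk : k < p) (hq : q.Prime) (hqp : q ≠ p)
    (hpq : ¬ p ∣ q - 1) (T : Finset ℕ) (β : ℕ → ℕ)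
    (hT : ∀ c ∈ T, 1 ≤ c ∧ c < q ∧ k < β c ∧ β c < q ∧
      c * β c / q = c * (β c - 1) / q + 1 ∧ c * (β c - 1) / q = c * (β c - k) / q ∧
      ¬ p ∣ c * β c % q ∧ ∀ a ∈ T, a < c → a * β c / q = a * (β c - k) / q)
    (S : Finset (DirichletCharacter (WW p) q))
    (hS : ∀ χ : DirichletCharacter (WW p) q, IsUnit (ta (gg p k q) χ) → χ ∈ S) :
    T.card ≤ S.card + 1 := by
  classical
  have hFq : Fact q.Prime := ⟨hq⟩
  have hne : NeZero (Monoid.exponent (ZMod q)ˣ) := ⟨Monoid.exponent_ne_zero_of_finite⟩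
  have htot : ¬ p ∣ q.totient := by rwa [Nat.totient_prime hq]
  have := enough p (Monoid.exponent (ZMod q)ˣ) (exp_not_dvd p htot)
  have hρu : ∀ x, IsLocalRing.residue (WW p) x ≠ 0 ↔ IsUnit x :=
    fun x => IsLocalRing.residue_ne_zero_iff_isUnit x
  have hqu : IsUnit (q : WW p) :=
    nat_unit p (fun h => hqp ((Nat.prime_dvd_prime_iff_eq hp.out hq).1 h).symm)
  have hku : IsUnit (k : WW p) := nat_unit p (fun h => by
    have := Nat.le_of_dvd hk1 h
    omega)
  have hq1u : IsUnit ((q - 1 : ℕ) : WW p) := nat_unit p hpq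
  have hmain := rank_abs (ι := DirichletCharacter (WW p) q) (IsLocalRing.residue (WW p)) T
    (ta (gg p k q))
    (fun c χ => ∑ i ∈ range (k + 1), (-1 : WW p) ^ i * (k.choose i : WW p) *
      χ ((β c - i : ℕ) : ZMod q)⁻¹)
    (fun a χ => χ (a : ZMod q)⁻¹)
    (fun a => ((q - 1 : ℕ) : WW p) * ((k ! : WW p) * (a : WW p) ^ k))
    (fun c a => ((q - 1 : ℕ) : WW p) * ((k ! : WW p) * (a : WW p) ^ k) -
      ((q - 1 : ℕ) : WW p) * wd p k q a (β c))
    (by
      intro c hc a ha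
      obtain ⟨-, -, hc2, hcbq, -, -, -, -⟩ := hT c hc
      obtain ⟨ha1, haq, -, -, -, -, -, -⟩ := hT a ha
      have hj : ((q - 1 : ℕ) : WW p) * wd p k q a (β c) = _ :=
        window (R := WW p) hq (gg p k q) ha1 haq hc2 hcbq
      exact congrArg (fun z : WW p => ((q - 1 : ℕ) : WW p) * ((k ! : WW p) * (a : WW p) ^ k) - z) hj)
    (by
      intro c hc a ha hac
      obtain ⟨-, -, hc2, hcbq, -, -, -, h⟩ := hT c hc
      have h3 := wd_none p hk1 hk hq.ne_zero hc2 (h a ha hac)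
      show IsLocalRing.residue (WW p) (((q - 1 : ℕ) : WW p) * ((k ! : WW p) * (a : WW p) ^ k) -
        ((q - 1 : ℕ) : WW p) * wd p k q a (β c)) = 0
      rw [h3, sub_self, map_zero])
    (by
      intro c hc
      obtain ⟨-, -, hc2, hcbq, hc3, hc4, hc5, h⟩ := hT c hc
      have h3 := wd_jump p hk1 hk hq.ne_zero hc2 hc3 hc4
      show IsLocalRing.residue (WW p) (((q - 1 : ℕ) : WW p) * ((k ! : WW p) * (c : WW p) ^ k) -
        ((q - 1 : ℕ) : WW p) * wd p k q c (β c)) ≠ 0
      rw [← mul_sub, h3, sub_sub_cancel, hρu]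
      exact hq1u.mul ((hku.mul hqu).mul ((nat_unit p hc5).pow _)))
  refine hmain.trans (Nat.add_le_add_right (card_le_card ?_) 1)
  intro χ hχ
  exact hS χ ((hρu _).1 (mem_filter.1 hχ).2)

end Pool.Agent.U332.LK
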