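import Mathlib
import Pool.Agent.U332.LK.Stm
import Pool.Agent.U332.LK.W

/-!
# Many unit values `L_p(1 - k, ω^k χ)`, `2 ≤ k ≤ p - 1`, for the characters `χ` modulo a prime `q`
-/

set_option autoImplicit false

namespace Pool.Agent.U332.LK

open Finset Pool.Agent.U332.GX

/-- the generalized Bernoulli number `B_{k,χ}` -/
noncomputable def genB (p : ℕ) [Fact p.Prime] (k : ℕ) {q : ℕ}
    (χ : DirichletCharacter (WW p) q) : KK p :=
  (q : KK p) ^ (k - 1) * ∑ a ∈ range q, algebraMap (WW p) (KK p) (χ (a : ZMod q)) *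
    (((Polynomial.bernoulli k).eval ((a : ℚ) / q) : ℚ) : KK p)

/-- the value `L_p(1 - k, ω^k χ)` -/
noncomputable def Lval (p : ℕ) [Fact p.Prime] (k : ℕ) {q : ℕ}
    (χ : DirichletCharacter (WW p) q) : KK p :=
  -((1 - algebraMap (WW p) (KK p) (χ ((p : ℕ) : ZMod q)) * (p : KK p) ^ (k - 1)) * genB p k χ / k)

/-- the value is a unit of the ring of Witt vectors -/
def UnitL (p : ℕ) [Fact p.Prime] (k : ℕ) {q : ℕ} (χ : DirichletCharacter (WW p) q) : Prop :=
  ∃ u : (WW p)ˣ, Lval p k χ = algebraMap (WW p) (KK p) u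

open Classical in
/-- the number of the nontrivial characters modulo `q` with unit value -/
noncomputable def goodK (p : ℕ) [Fact p.Prime] (k q : ℕ) : ℕ :=
  (univ.filter fun χ : DirichletCharacter (WW p) q => χ ≠ 1 ∧ UnitL p k χ).card

variable (p : ℕ) [hp : Fact p.Prime]

lemma sum_range_zmod {R : Type} [CommRing R] {q : ℕ} [NeZero q] (g : ℕ → R) :
    ∑ a ∈ range q, g a = ∑ x : ZMod q, g x.val := by
  symm
  refine sum_nbij' (fun x => x.val) (fun k => (k : ZMod q)) ?_ ?_ ?_ ?_ ?_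
  · intro x _
    exact mem_range.2 (ZMod.val_lt x)
  · intro k _
    exact mem_univ _
  · intro x _
    exact ZMod.natCast_zmod_val x
  · intro k hk
    exact ZMod.val_cast_of_lt (mem_range.1 hk)
  · intro x _
    rfl

lemma genB_eq {k q : ℕ} [NeZero q] (hk1 : 1 ≤ k) (hk : k < p) (χ : DirichletCharacter (WW p) q)
    (hχ : χ ≠ 1) : (q : KK p) * genB p k χ = algebraMap (WW p) (KK p) (ta (gg p k q) χ) := by
  have hq0 : q ≠ 0 := NeZero.ne q
  have h0 : ∑ x : ZMod q, χ x = 0 := MulChar.sum_eq_zero_of_ne_one hχ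
  unfold genB ta
  rw [sum_range_zmod, ← mul_assoc, ← pow_succ', Nat.sub_add_cancel hk1, map_sum, mul_sum]
  have h1 : ∀ x : ZMod q, (q : KK p) ^ k * (algebraMap (WW p) (KK p) (χ ((x.val : ℕ) : ZMod q)) *
      (((Polynomial.bernoulli k).eval ((x.val : ℚ) / q) : ℚ) : KK p)) =
      algebraMap (WW p) (KK p) (gg p k q x * χ x) +
        ((q : KK p) ^ k * ((bernoulli k : ℚ) : KK p)) * algebraMap (WW p) (KK p) (χ x) := by
    intro x
    rw [ZMod.natCast_zmod_val, map_mul]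
    have h2 : algebraMap (WW p) (KK p) (gg p k q x) = (q : KK p) ^ k *
        ((((Polynomial.bernoulli k).eval ((x.val : ℚ) / q) : ℚ) : KK p) -
          ((bernoulli k : ℚ) : KK p)) := by
      unfold gg
      rw [ff_map p hk, F_eq k q hq0]
      simp only [Rat.cast_mul, Rat.cast_sub, Rat.cast_pow, Rat.cast_natCast]
    rw [h2]
    ring
  rw [sum_congr rfl (fun x _ => h1 x), sum_add_distrib, ← mul_sum, ← map_sum, ← map_sum, h0]
  simp

lemma unitL_of {k q : ℕ} (hk2 : 2 ≤ k) (hk : k < p) (hq : q.Prime) (hqp : q ≠ p)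
    (χ : DirichletCharacter (WW p) q) (hχ : χ ≠ 1)
    (h : haveI : NeZero q := ⟨hq.ne_zero⟩; IsUnit (ta (gg p k q) χ)) : UnitL p k χ := by
  have hNZ : NeZero q := ⟨hq.ne_zero⟩
  have h1 : (q : KK p) * genB p k χ = algebraMap (WW p) (KK p) (ta (gg p k q) χ) :=
    genB_eq p (by omega) hk χ hχ
  have h' : IsUnit (ta (gg p k q) χ) := h
  have hqu : IsUnit (q : WW p) :=
    nat_unit p (fun h => hqp ((Nat.prime_dvd_prime_iff_eq hp.out hq).1 h).symm)
  have hku : IsUnit (k : WW p) := nat_unit p (fun h => by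
    have := Nat.le_of_dvd (by omega) h
    omega)
  have hEu : IsUnit (1 - χ ((p : ℕ) : ZMod q) * (p : WW p) ^ (k - 1)) := by
    rcases dich p (1 - χ ((p : ℕ) : ZMod q) * (p : WW p) ^ (k - 1)) with h2 | h2
    · exact h2
    · exfalso
      have h3 : (p : WW p) ∣ χ ((p : ℕ) : ZMod q) * (p : WW p) ^ (k - 1) :=
        dvd_mul_of_dvd_right (dvd_pow_self _ (by omega)) _
      have h4 : (p : WW p) ∣ 1 := by
        have := dvd_add h2 h3
        simpa using this
      exact p_not_unit p (isUnit_of_dvd_one h4)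
  obtain ⟨t, ht⟩ := h'
  obtain ⟨a, ha⟩ := hqu
  obtain ⟨b, hb⟩ := hku
  obtain ⟨e, he⟩ := hEu
  have hq0 : (q : KK p) ≠ 0 := by exact_mod_cast hq.ne_zero
  have hk0 : (k : KK p) ≠ 0 := by
    have : k ≠ 0 := by omega
    exact_mod_cast this
  refine ⟨-(e * t * a⁻¹ * b⁻¹), ?_⟩
  have hqa : algebraMap (WW p) (KK p) ((a⁻¹ : (WW p)ˣ) : WW p) * (q : KK p) = 1 := by
    rw [← map_natCast (algebraMap (WW p) (KK p)) q, ← ha, ← map_mul, Units.inv_mul, map_one]
  have hkb : algebraMap (WW p) (KK p) ((b⁻¹ : (WW p)ˣ) : WW p) * (k : KK p) = 1 := by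
    rw [← map_natCast (algebraMap (WW p) (KK p)) k, ← hb, ← map_mul, Units.inv_mul, map_one]
  have hee : algebraMap (WW p) (KK p) (e : WW p) =
      1 - algebraMap (WW p) (KK p) (χ ((p : ℕ) : ZMod q)) * (p : KK p) ^ (k - 1) := by
    rw [he, map_sub, map_one, map_mul, map_pow, map_natCast (algebraMap (WW p) (KK p)) p]
  have htt : algebraMap (WW p) (KK p) (t : WW p) = (q : KK p) * genB p k χ := by
    rw [ht, h1]
  unfold Lval
  rw [← hee, Units.val_neg, Units.val_mul, Units.val_mul, Units.val_mul, map_neg, map_mul, map_mul,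
    map_mul, htt]
  congr 1
  rw [div_eq_iff hk0]
  linear_combination (-(algebraMap (WW p) (KK p) (e : WW p)) * genB p k χ) * hkb -
    (algebraMap (WW p) (KK p) (e : WW p)) * genB p k χ *
      (algebraMap (WW p) (KK p) ((b⁻¹ : (WW p)ˣ) : WW p) * (k : KK p)) * hqa

theorem main (hB : S_B) (hC : S_C) (hp2 : p ≠ 2) (ε : ℝ) (hε : 0 < ε) :
    ∃ Q : ℕ, ∀ q : ℕ, q.Prime → Q ≤ q → ¬ p ∣ q - 1 → ∀ k : ℕ, 2 ≤ k → k ≤ p - 1 →
      (q : ℝ) ^ (2 / 3 - ε) ≤ (goodK p k q : ℝ) := by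
  classical
  set η : ℝ := min ε (1 / 3) with hη
  have hη0 : 0 < η := lt_min hε (by norm_num)
  have hη1 : η ≤ ε := min_le_left _ _
  have hη2 : η ≤ 1 / 3 := min_le_right _ _
  obtain ⟨Q, hQ⟩ := hC p hp.out hp2 (η / 2) (by positivity)
  obtain ⟨Q₁, hQ₁⟩ : ∃ Q₁ : ℕ, ∀ q : ℕ, Q₁ ≤ q → (3 : ℝ) ≤ (q : ℝ) ^ (η / 2) := by
    have h := (tendsto_rpow_atTop (show 0 < η / 2 by positivity)).eventually_ge_atTop 3
    have h1 := tendsto_natCast_atTop_atTop (R := ℝ) |>.eventually h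
    exact Filter.eventually_atTop.1 h1
  refine ⟨max (max Q Q₁) (p + 1), ?_⟩
  intro q hq hQq hpq k hk2 hkp
  have hQ1 : Q ≤ q := le_trans (le_max_left _ _) (le_trans (le_max_left _ _) hQq)
  have hQ2 : Q₁ ≤ q := le_trans (le_max_right _ _) (le_trans (le_max_left _ _) hQq)
  have hQ3 : p + 1 ≤ q := le_trans (le_max_right _ _) hQq
  have hqp : q ≠ p := by omega
  have hk1 : 1 ≤ k := by omega
  have hk : k < p := by
    have := hp.out.two_le
    omega
  have h1 := hQ k q hk1 hkp hq hQ1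
  have h2 := hQ₁ q hQ2
  set T : Finset ℕ := (range q).filter (fun c => Rep p k q c) with hT
  have hTc : {c : ℕ | c < q ∧ Rep p k q c}.ncard = T.card := by
    rw [← Set.ncard_coe_finset]
    congr 1
    ext c
    simp [hT]
  have hbeta : ∀ c : ℕ, ∃ b : ℕ, c < q → Rep p k q c → (k < b ∧ b < q ∧
      c * b / q = c * (b - 1) / q + 1 ∧ c * (b - 1) / q = c * (b - k) / q ∧ ¬ p ∣ c * b % q ∧
      ∀ a, a < c → a * b / q = a * (b - k) / q) := by
    intro c
    by_cases hc : c < q ∧ Rep p k q c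
    · obtain ⟨b, hb⟩ := hB p k q c hp.out hk1 hq hc.1 hc.2
      exact ⟨b, fun _ _ => hb⟩
    · exact ⟨0, fun h1 h2 => absurd ⟨h1, h2⟩ hc⟩
  choose β hβ using hbeta
  have hNZ : NeZero q := ⟨hq.ne_zero⟩
  have h3 := rank_le p hk1 hk hq hqp hpq T β (by
    intro c hc
    simp only [hT, mem_filter, mem_range] at hc
    obtain ⟨hb1, hb2, hb3, hb4, hb5, hb6⟩ := hβ c hc.1 hc.2
    refine ⟨?_, hc.1, hb1, hb2, hb3, hb4, hb5, fun a _ ha => hb6 a ha⟩
    rcases Nat.eq_zero_or_pos c with h0 | h0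
    · subst h0
      simp at hb3
    · exact h0)
    ((univ.filter fun χ : DirichletCharacter (WW p) q => χ ≠ 1 ∧ UnitL p k χ) ∪ {1}) (by
      intro χ hχ
      rw [mem_union, mem_singleton, mem_filter]
      by_cases h : χ = 1
      · right
        exact h
      · left
        exact ⟨mem_univ _, h, unitL_of p hk2 hk hq hqp χ h hχ⟩)
  have h4 : T.card ≤ goodK p k q + 2 := by
    have h6 := card_union_le
      (univ.filter fun χ : DirichletCharacter (WW p) q => χ ≠ 1 ∧ UnitL p k χ) {1}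
    rw [card_singleton] at h6
    have h7 : T.card ≤ (univ.filter fun χ : DirichletCharacter (WW p) q =>
        χ ≠ 1 ∧ UnitL p k χ).card + 2 := by omega
    unfold goodK
    convert h7
  rw [hTc] at h1
  have h5 : (T.card : ℝ) ≤ (goodK p k q : ℝ) + 2 := by exact_mod_cast h4
  have hq1 : (1 : ℝ) ≤ q := by exact_mod_cast hq.one_lt.le
  have h6 : (q : ℝ) ^ (2 / 3 - η / 2) = (q : ℝ) ^ (2 / 3 - η) * (q : ℝ) ^ (η / 2) := by
    rw [← Real.rpow_add (by linarith)]
    congr 1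
    ring
  have h7 : (1 : ℝ) ≤ (q : ℝ) ^ (2 / 3 - η) := Real.one_le_rpow hq1 (by linarith)
  have h8 : (q : ℝ) ^ (2 / 3 - ε) ≤ (q : ℝ) ^ (2 / 3 - η) :=
    Real.rpow_le_rpow_of_exponent_le hq1 (by linarith)
  rw [h6] at h1
  nlinarith

end Pool.Agent.U332.LK
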